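import Pool.Agent.Helper23.QF.Goals

set_option autoImplicit false

open scoped Matrix
open Pool.Agent.Helper23.QF

namespace Pool.Agent.Helper79.QF

theorem mem_words {a b : ℕ} : ∀ {n : ℕ} {w : List ℕ}, w ∈ words a b n →
    Word a b w ∧ w.length = n := by
  intro n
  induction n with
  | zero =>
    intro w hw
    simp only [words, Finset.mem_singleton] at hw
    subst hw
    exact ⟨fun x hx => by simp at hx, rfl⟩
  | succ n ih =>
    intro w hw
    simp only [words, Finset.mem_union, Finset.mem_image] at hw
    rcases hw with ⟨v, hv, rfl⟩ | ⟨v, hv, rfl⟩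
    · obtain ⟨h1, h2⟩ := ih hv
      refine ⟨?_, by simp [h2]⟩
      intro x hx
      rw [List.mem_cons] at hx
      rcases hx with rfl | hx
      · exact Or.inl rfl
      · exact h1 x hx
    · obtain ⟨h1, h2⟩ := ih hv
      refine ⟨?_, by simp [h2]⟩
      intro x hx
      rw [List.mem_cons] at hx
      rcases hx with rfl | hx
      · exact Or.inr rfl
      · exact h1 x hx

theorem word_pos {a b : ℕ} (ha : 0 < a) (hb : 0 < b) {w : List ℕ} (hw : Word a b w) :
    ∀ x ∈ w, 1 ≤ x := by
  intro x hx
  rcases hw x hx with rfl | rfl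
  · exact ha
  · exact hb

theorem K_pos {a b : ℕ} (ha : 0 < a) (hb : 0 < b) {w : List ℕ} (hw : Word a b w) :
    1 ≤ K w := (M_entries w (word_pos ha hb hw)).1

theorem K_append {a b : ℕ} (ha : 0 < a) (hb : 0 < b) {v w : List ℕ} (hv : Word a b v)
    (hw : Word a b w) : K (v ++ w) ≤ 2 * K v * K w := by
  have h1 := M_entries w (word_pos ha hb hw)
  have h2 := M_entries v (word_pos ha hb hv)
  have h3 := M_entries v.reverse (fun x hx => word_pos ha hb hv x (List.mem_reverse.1 hx))
  rw [M_reverse] at h3
  simp only [Matrix.transpose_apply] at h3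
  unfold K
  rw [M_append, Matrix.mul_apply, Fin.sum_univ_two]
  obtain ⟨w1, w2, w3, w4, w5, w6⟩ := h1
  obtain ⟨v1, v2, v3, v4, v5, v6⟩ := h2
  obtain ⟨r1, r2, r3, r4, r5, r6⟩ := h3
  have h4 : M v 0 1 * M w 1 0 ≤ M v 0 0 * M w 0 0 :=
    mul_le_mul r5 w5 w3 (by linarith)
  linarith

theorem word_append {a b : ℕ} {v w : List ℕ} (hv : Word a b v) (hw : Word a b w) :
    Word a b (v ++ w) := by
  intro x hx
  rw [List.mem_append] at hx
  rcases hx with hx | hx
  · exact hv x hx
  · exact hw x hx

theorem gCOUNT : GCOUNT := by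
  intro a b n s ha hb _ hs hsum
  -- n is positive
  have hn : n ≠ 0 := by
    rintro rfl
    simp only [words, Finset.sum_singleton] at hsum
    have h1 : K [] = 1 := by simp [K, M]
    rw [h1] at hsum
    have h2 : ((2 : ℝ) * ((1 : ℤ) : ℝ)) ^ (-(2 * s)) < 1 := by
      apply Real.rpow_lt_one_of_one_lt_of_neg
      · norm_num
      · linarith
    linarith
  -- a bound for the continuants
  obtain ⟨B, hB1, hB⟩ : ∃ B : ℝ, 1 ≤ B ∧ ∀ w ∈ words a b n, (K w : ℝ) ≤ B := by
    refine ⟨1 + ∑ w ∈ words a b n, |(K w : ℝ)|, ?_, ?_⟩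
    · have : 0 ≤ ∑ w ∈ words a b n, |(K w : ℝ)| := Finset.sum_nonneg (fun _ _ => abs_nonneg _)
      linarith
    · intro w hw
      have h1 : |(K w : ℝ)| ≤ ∑ w ∈ words a b n, |(K w : ℝ)| :=
        Finset.single_le_sum (f := fun w => |(K w : ℝ)|) (fun _ _ => abs_nonneg _) hw
      have h2 := le_abs_self (K w : ℝ)
      linarith
  have hB0 : 0 < 2 * B := by linarith
  refine ⟨(2 * B) ^ (-(2 * s)), Real.rpow_pos_of_pos hB0 _, ?_⟩
  have key : ∀ k : ℕ, ∀ R : ℝ, 1 ≤ R → R < 2 ^ k → ∃ S : Finset (List ℕ),
      (∀ u ∈ S, Word a b u ∧ (K u : ℝ) ≤ R) ∧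
        (2 * B) ^ (-(2 * s)) * R ^ (2 * s) ≤ (S.card : ℝ) := by
    intro k
    induction k with
    | zero =>
      intro R h1 h2
      rw [pow_zero] at h2
      linarith
    | succ k ih =>
      intro R h1 h2
      by_cases hR : R < 2 * B
      · refine ⟨{[]}, ?_, ?_⟩
        · intro u hu
          rw [Finset.mem_singleton] at hu
          subst hu
          refine ⟨fun x hx => by simp at hx, ?_⟩
          have h3 : K [] = 1 := by simp [K, M]
          rw [h3]
          simpa using h1
        · rw [Finset.card_singleton, Nat.cast_one]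
          rw [Real.rpow_neg hB0.le, inv_mul_le_iff₀ (Real.rpow_pos_of_pos hB0 _), mul_one]
          exact Real.rpow_le_rpow (by linarith) hR.le (by linarith)
      · rw [not_lt] at hR
        have hch : ∀ v : List ℕ, ∃ S : Finset (List ℕ), v ∈ words a b n →
            (∀ u ∈ S, Word a b u ∧ (K u : ℝ) ≤ R / (2 * K v)) ∧
              (2 * B) ^ (-(2 * s)) * (R / (2 * K v)) ^ (2 * s) ≤ (S.card : ℝ) := by
          intro v
          by_cases hv : v ∈ words a b n
          · have hw := (mem_words hv).1
            have hK1 : (1 : ℝ) ≤ K v := by exact_mod_cast K_pos ha hb hw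
            have hKB := hB v hv
            have h5 : 1 ≤ R / (2 * K v) := by
              rw [le_div_iff₀ (by linarith)]
              linarith
            have h6 : R / (2 * K v) < 2 ^ k := by
              rw [div_lt_iff₀ (by linarith)]
              rw [pow_succ] at h2
              have h7 : (2 : ℝ) ^ k * 2 ≤ 2 ^ k * (2 * K v) := by
                apply mul_le_mul_of_nonneg_left (by linarith) (by positivity)
              linarith
            obtain ⟨S, hS⟩ := ih _ h5 h6
            exact ⟨S, fun _ => hS⟩
          · exact ⟨∅, fun h => absurd h hv⟩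
        choose S hS using hch
        have hdisj : (↑(words a b n) : Set (List ℕ)).PairwiseDisjoint
            (fun v => (S v).image (fun u => v ++ u)) := by
          intro v hv v' hv' hne
          rw [Function.onFun, Finset.disjoint_left]
          intro x hx hx'
          rw [Finset.mem_image] at hx hx'
          obtain ⟨u, _, rfl⟩ := hx
          obtain ⟨u', _, h3⟩ := hx'
          apply hne
          have l1 := (mem_words (Finset.mem_coe.1 hv)).2
          have l2 := (mem_words (Finset.mem_coe.1 hv')).2
          exact ((List.append_inj h3 (by rw [l1, l2])).1).symm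
        refine ⟨(words a b n).biUnion (fun v => (S v).image (fun u => v ++ u)), ?_, ?_⟩
        · intro x hx
          rw [Finset.mem_biUnion] at hx
          obtain ⟨v, hv, hx⟩ := hx
          rw [Finset.mem_image] at hx
          obtain ⟨u, hu, rfl⟩ := hx
          obtain ⟨hu1, hu2⟩ := (hS v hv).1 u hu
          have hw := (mem_words hv).1
          refine ⟨word_append hw hu1, ?_⟩
          have hK1 : (1 : ℝ) ≤ K v := by exact_mod_cast K_pos ha hb hw
          have h3 : (K (v ++ u) : ℝ) ≤ 2 * K v * K u := by
            exact_mod_cast K_append ha hb hw hu1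
          rw [le_div_iff₀ (by linarith)] at hu2
          linarith
        · rw [Finset.card_biUnion hdisj]
          push_cast
          have h4 : ∀ v ∈ words a b n, (2 * B) ^ (-(2 * s)) * (R ^ (2 * s) *
              (2 * (K v : ℝ)) ^ (-(2 * s))) ≤ (((S v).image (fun u => v ++ u)).card : ℝ) := by
            intro v hv
            have hw := (mem_words hv).1
            have hK1 : (1 : ℝ) ≤ K v := by exact_mod_cast K_pos ha hb hw
            rw [Finset.card_image_of_injective _ (List.append_right_injective v)]
            refine le_trans (le_of_eq ?_) (hS v hv).2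
            rw [Real.div_rpow (by linarith) (by linarith), Real.rpow_neg (by linarith : (0 : ℝ) ≤ 2 * K v)]
            rfl
          refine le_trans ?_ (Finset.sum_le_sum h4)
          rw [← Finset.mul_sum, ← Finset.mul_sum]
          apply mul_le_mul_of_nonneg_left _ (Real.rpow_nonneg hB0.le _)
          have h5 : 0 ≤ R ^ (2 * s) := Real.rpow_nonneg (by linarith) _
          nlinarith
  intro R hR
  obtain ⟨k, hk⟩ := pow_unbounded_of_one_lt R (by norm_num : (1 : ℝ) < 2)
  exact key k R hR hk

end Pool.Agent.Helper79.QF
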